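import Pool.Agent.Helper97.Tate.Goals

/-!
# Project FewPoints (MP_d3128a_ag): packet TATE-KRA, the first levels of a block are injective
-/

set_option autoImplicit false

open Finset Module
open Pool.Agent.Helper97.Tate

namespace Pool.Agent.Helper32.Tate.KRA

lemma mem_strip (P κ L : ℕ) (hP : 1 ≤ P) (s : ℤ) (p : ℤ × ℤ) :
    p ∈ strip P κ L s ↔ 0 ≤ p.1 ∧ p.1 < L ∧
      (2 * (P : ℤ) - 1) * p.1 ≤ 2 * (P : ℤ) ^ 2 * (p.2 - s) ∧
      2 * (P : ℤ) ^ 2 * (p.2 - s - κ) < (2 * (P : ℤ) - 1) * p.1 := by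
  unfold strip
  rw [mem_filter, mem_product, mem_Ico, mem_Icc]
  constructor
  · rintro ⟨⟨⟨h1, h2⟩, _⟩, h3, h4⟩
    exact ⟨h1, h2, h3, h4⟩
  · rintro ⟨h1, h2, h3, h4⟩
    have hP' : (1 : ℤ) ≤ P := by exact_mod_cast hP
    refine ⟨⟨⟨h1, h2⟩, ?_, ?_⟩, h3, h4⟩
    · by_contra hc
      push Not at hc
      have h5 : 2 * (P:ℤ) ^ 2 * (p.2 - s) ≤ 2 * (P:ℤ) ^ 2 * (-1) :=
        mul_le_mul_of_nonneg_left (by linarith) (by positivity)
      have h6 : 0 ≤ (2 * (P:ℤ) - 1) * p.1 := mul_nonneg (by linarith) h1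
      nlinarith
    · by_contra hc
      push Not at hc
      have h5 : 2 * (P:ℤ) ^ 2 * L ≤ 2 * (P:ℤ) ^ 2 * (p.2 - s - κ) :=
        mul_le_mul_of_nonneg_left (by linarith) (by positivity)
      have h6 : (2 * (P:ℤ) - 1) * p.1 ≤ (2 * (P:ℤ) - 1) * L :=
        mul_le_mul_of_nonneg_left h2.le (by linarith)
      have h7 : (2 * (P:ℤ) - 1) * L ≤ 2 * (P:ℤ) ^ 2 * L :=
        mul_le_mul_of_nonneg_right (by nlinarith) (by positivity)
      linarith

lemma exists_n (P κ : ℕ) (hP : 1 ≤ P) (hκ : 1 ≤ κ) (j : ℤ) (r : ℕ) (hr : r < κ) :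
    ∃ n : ℤ, (2 * (P : ℤ) - 1) * j ≤ 2 * (P : ℤ) ^ 2 * n ∧
      2 * (P : ℤ) ^ 2 * (n - κ) < (2 * (P : ℤ) - 1) * j ∧ n % κ = r := by
  have hP' : (1 : ℤ) ≤ P := by exact_mod_cast hP
  obtain ⟨D, hD⟩ : ∃ D : ℤ, D = 2 * (P:ℤ) ^ 2 := ⟨_, rfl⟩
  obtain ⟨H, hH⟩ : ∃ H : ℤ, H = (2 * (P:ℤ) - 1) * j := ⟨_, rfl⟩
  rw [← hD, ← hH]
  have hD0 : 0 < D := by rw [hD]; positivity
  obtain ⟨c, hc⟩ : ∃ c : ℤ, c = -((-H) / D) := ⟨_, rfl⟩
  have e1 := Int.emod_add_mul_ediv (-H) D
  have e2 := Int.emod_nonneg (-H) hD0.ne'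
  have e3 := Int.emod_lt_of_pos (-H) hD0
  have h1 : H ≤ D * c := by rw [hc]; linarith
  have h2 : D * (c - 1) < H := by rw [hc]; linarith
  have hκ0 : (0:ℤ) < κ := by exact_mod_cast hκ
  have e4 := Int.emod_nonneg (r - c) hκ0.ne'
  have e5 := Int.emod_lt_of_pos (r - c) hκ0
  refine ⟨c + (r - c) % κ, ?_, ?_, ?_⟩
  · have : D * c ≤ D * (c + (r - c) % κ) := mul_le_mul_of_nonneg_left (by linarith) hD0.le
    linarith
  · have : D * (c + (r - c) % κ - κ) ≤ D * (c - 1) :=
      mul_le_mul_of_nonneg_left (by omega) hD0.le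
    linarith
  · have h3 : (c + (r - c) % κ) % κ = (c + (r - c)) % κ := (Int.mod_modEq _ _).add_left c
    rw [h3, add_sub_cancel]
    exact Int.emod_eq_of_lt (by positivity) (by exact_mod_cast hr)

theorem t (h1 : S_BLK) (h2 : S_STR) : S_KRA := by
  intro k _ _ b κ' P R M z x y ρ E j0 hb hκ' hM hρ hG
  have hbot : Ker M (P * R) j0
      (fun i : Fin b => algebraMap (OO k) (KK k) (PowerSeries.C ((y i : kˣ) : k)))
      (fun i j (r : Fin (b * κ')) => evK (x i) (Th (b * κ') ((r : ℕ) : ℤ)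
        ((ρ : k) * (z : k) ^ (((b * κ' : ℕ) : ℤ) * (E - 9 * j))))) = ⊥ := by
    rw [Submodule.eq_bot_iff]
    intro a ha
    rcases Nat.eq_zero_or_pos P with hP | hP
    · funext j
      have h0 : P * R = 0 := by rw [hP, Nat.zero_mul]
      have hj := j.2
      omega
    have hP' : (1 : ℤ) ≤ P := by exact_mod_cast hP
    have hκ : 1 ≤ b * κ' := Nat.mul_pos hb hκ'
    have hκ0 : (0:ℤ) < ((b * κ' : ℕ) : ℤ) := by exact_mod_cast hκ
    obtain ⟨a', ha'⟩ : ∃ a' : ℤ × ℤ → KK k, ∀ p, a' p =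
        if hp : p.1.toNat < P * R ∧ (p.2 % ((b * κ' : ℕ) : ℤ)).toNat < b * κ' then
          a ⟨_, hp.1⟩ ⟨_, hp.2⟩ else 0 := ⟨_, fun _ => rfl⟩
    have hb1 : ∀ p ∈ strip P (b * κ') (P * R) 0, p.1.toNat < P * R := by
      intro p hp
      rw [mem_strip P _ _ hP] at hp
      have h3 := hp.1
      have h4 := hp.2.1
      omega
    have hb2 : ∀ n : ℤ, (n % ((b * κ' : ℕ) : ℤ)).toNat < b * κ' := by
      intro n
      have e4 := Int.emod_nonneg n hκ0.ne'
      have e5 := Int.emod_lt_of_pos n hκ0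
      omega
    have key := h1 k b κ' P M z x y ρ (E - 9 * j0) (strip P (b * κ') (P * R) 0) hb hκ' hP hρ hG
      (by
        intro p hp
        rw [mem_strip P _ _ hP] at hp
        obtain ⟨h3, h4, h5, h6⟩ := hp
        rw [sub_zero] at h5 h6
        refine ⟨h3, h5, ?_⟩
        push_cast at h6
        exact h6)
      (by
        intro i hi
        have e : (strip P (b * κ') (P * R) 0).filter (fun p =>
            (2 * (P : ℤ) - 1) * p.1 + 2 * (P : ℤ) ^ 2 * κ' * i ≤ 2 * (P : ℤ) ^ 2 * p.2 ∧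
            2 * (P : ℤ) ^ 2 * (p.2 - κ' * (i + 1)) < (2 * (P : ℤ) - 1) * p.1) =
            strip P κ' (P * R) (κ' * i) := by
          ext p
          rw [mem_filter, mem_strip P _ _ hP, mem_strip P _ _ hP]
          have h7 : (κ' : ℤ) * (i + 1) ≤ ((b * κ' : ℕ) : ℤ) := by
            push_cast
            rw [mul_comm (b : ℤ)]
            exact mul_le_mul_of_nonneg_left (by exact_mod_cast hi) (by positivity)
          have h8 : 0 ≤ 2 * (P : ℤ) ^ 2 * κ' * i := by positivity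
          constructor
          · rintro ⟨⟨h3, h4, h5, h6⟩, h9, h10⟩
            refine ⟨h3, h4, by linarith, ?_⟩
            have e1 : p.2 - κ' * i - κ' = p.2 - κ' * (i + 1) := by ring
            rw [e1]
            exact h10
          · rintro ⟨h3, h4, h5, h6⟩
            have e1 : p.2 - κ' * i - κ' = p.2 - κ' * (i + 1) := by ring
            rw [e1] at h6
            refine ⟨⟨h3, h4, by linarith, ?_⟩, by linarith, h6⟩
            have h11 : 2 * (P : ℤ) ^ 2 * (p.2 - 0 - ((b * κ' : ℕ) : ℤ)) ≤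
                2 * (P : ℤ) ^ 2 * (p.2 - κ' * (i + 1)) :=
              mul_le_mul_of_nonneg_left (by linarith) (by positivity)
            linarith
        rw [e]
        exact h2 P κ' M R (κ' * i) hP hκ' hM) a'
      (by
        intro i α β hαβ
        have h3 := ha i α β hαβ
        rw [← h3]
        trans ∑ q : Fin (P * R) × Fin (b * κ'),
          (algebraMap (OO k) (KK k) (PowerSeries.C ((y i : kˣ) : k))) ^ (q.1 : ℕ) *
          (((q.1 : ℕ).choose β : ℕ) : KK k) * (a q.1 q.2 * PowerSeries.coeff α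
            (evK (x i) (Th (b * κ') ((q.2 : ℕ) : ℤ)
              ((ρ : k) * (z : k) ^ (((b * κ' : ℕ) : ℤ) * (E - 9 * ((j0 + q.1 : ℕ) : ℤ)))))))
        · refine Finset.sum_bij (fun p hp => (⟨p.1.toNat, hb1 p hp⟩, ⟨_, hb2 p.2⟩))
            (fun p hp => mem_univ _) ?_ ?_ ?_
          · intro p hp q hq hpq
            rw [Prod.mk.injEq, Fin.mk.injEq, Fin.mk.injEq] at hpq
            rw [mem_strip P _ _ hP] at hp hq
            obtain ⟨p1, p2, p3, p4⟩ := hp
            obtain ⟨q1, q2, q3, q4⟩ := hq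
            rw [sub_zero] at p3 p4 q3 q4
            have e1 : p.1 = q.1 := by
              have := hpq.1
              omega
            have e4 := Int.emod_nonneg p.2 hκ0.ne'
            have e5 := Int.emod_nonneg q.2 hκ0.ne'
            have e2 : p.2 % ((b * κ' : ℕ) : ℤ) = q.2 % ((b * κ' : ℕ) : ℤ) := by
              have := hpq.2
              omega
            rw [e1] at p3 p4
            have hPP : (0:ℤ) < 2 * (P : ℤ) ^ 2 := by positivity
            have e6 : p.2 - ((b * κ' : ℕ) : ℤ) < q.2 :=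
              lt_of_mul_lt_mul_left (p4.trans_le q3) hPP.le
            have e7 : q.2 - ((b * κ' : ℕ) : ℤ) < p.2 :=
              lt_of_mul_lt_mul_left (q4.trans_le p3) hPP.le
            have e8 : ((b * κ' : ℕ) : ℤ) ∣ p.2 - q.2 := Int.ModEq.dvd (Eq.symm e2)
            have e9 : p.2 - q.2 = 0 := Int.eq_zero_of_abs_lt_dvd e8 (by rw [abs_lt]; constructor <;> linarith)
            exact Prod.ext e1 (by linarith)
          · intro q _
            obtain ⟨n, n1, n2, n3⟩ := exists_n P (b * κ') hP hκ ((q.1 : ℕ) : ℤ) (q.2 : ℕ) q.2.2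
            refine ⟨(((q.1 : ℕ) : ℤ), n), ?_, ?_⟩
            · rw [mem_strip P _ _ hP]
              refine ⟨by positivity, Int.ofNat_lt.2 q.1.2, by rw [sub_zero]; exact n1,
                by rw [sub_zero]; exact n2⟩
            · refine Prod.ext (Fin.ext ?_) (Fin.ext ?_)
              · simp
              · simp only [n3]
                simp
          · intro p hp
            have hp' := hp
            rw [mem_strip P _ _ hP] at hp'
            have e0 : ((p.1.toNat : ℕ) : ℤ) = p.1 := Int.toNat_of_nonneg hp'.1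
            have e1 : (((p.2 % ((b * κ' : ℕ) : ℤ)).toNat : ℕ) : ℤ) = p.2 % ((b * κ' : ℕ) : ℤ) :=
              Int.toNat_of_nonneg (Int.emod_nonneg p.2 hκ0.ne')
            have e2 : E - 9 * ((j0 + p.1.toNat : ℕ) : ℤ) = E - 9 * j0 - 9 * p.1 := by
              push_cast
              rw [e0]
              ring
            rw [ha', dif_pos ⟨hb1 p hp, hb2 p.2⟩]
            simp only [e1, e2]
        · rw [Fintype.sum_prod_type]
          apply Finset.sum_congr rfl
          intro j _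
          rw [Finset.mul_sum])
    funext j r
    obtain ⟨n, n1, n2, n3⟩ := exists_n P (b * κ') hP hκ ((j : ℕ) : ℤ) (r : ℕ) r.2
    have h3 := key (((j : ℕ) : ℤ), n) (by
      rw [mem_strip P _ _ hP]
      exact ⟨by positivity, Int.ofNat_lt.2 j.2, by rw [sub_zero]; exact n1,
        by rw [sub_zero]; exact n2⟩)
    rw [ha', dif_pos ⟨by simp, hb2 n⟩] at h3
    rw [Pi.zero_apply, Pi.zero_apply, ← h3]
    congr 1
    apply Fin.ext
    simp only [n3]
    simp
  rw [hbot, finrank_bot]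

end Pool.Agent.Helper32.Tate.KRA
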